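import Pool.Agent.Lib.MP_6ec4b3_lc.Interfaces

/-!
# The self-reduction (module SR)
-/

namespace Pool.Agent.Polya.H4

open Pool.Agent.Polya Pool.Agent.Shoped30

/-- What is accepted by the test is satisfied by the assignment. -/
theorem satB_iff (ψ : List Cl4) (as : List Lit) :
    satB ψ as = true ↔ ∀ C ∈ ψ, Cl4.sat (asgn as) C := by
  unfold satB
  rw [List.all_eq_true]
  refine forall₂_congr fun C _ => ?_
  unfold Cl4.sat lval
  simp only [Bool.or_eq_true, or_assoc]

theorem sat4_of_satB (ψ : List Cl4) (as : List Lit) (h : satB ψ as = true) : Sat4 ψ :=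
  ⟨asgn as, (satB_iff ψ as).1 h⟩

open scoped Classical in
/-- The canonical path. -/
noncomputable def cpath (N : ℕ) (ψ : List Cl4) : ℕ → List Lit
  | 0 => []
  | i + 1 => cpath N ψ i ++ [(i, decide (Sat4 (query N ψ (cpath N ψ i) i)))]

theorem cpath_length (N : ℕ) (ψ : List Cl4) (i : ℕ) : (cpath N ψ i).length = i := by
  induction i with
  | zero => rfl
  | succ i ih => simp [cpath, ih]

theorem query_length (N : ℕ) (ψ : List Cl4) (as : List Lit) (i : ℕ) (hi : i < N)
    (has : as.length = i) : (query N ψ as i).length = ψ.length + N := by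
  simp only [query, List.length_append, List.length_map, List.length_cons, List.length_replicate,
    has]
  omega

theorem sat_unitC (α : ℕ → Bool) (x : Lit) : Cl4.sat α (unitC x) ↔ lval α x = true := by
  unfold Cl4.sat unitC
  simp

theorem sat_tautC (α : ℕ → Bool) : Cl4.sat α tautC := by
  unfold Cl4.sat tautC lval
  cases α 0 <;> simp

theorem sat_query (α : ℕ → Bool) (N : ℕ) (ψ : List Cl4) (as : List Lit) (i : ℕ) :
    (∀ C ∈ query N ψ as i, Cl4.sat α C) ↔
      (∀ C ∈ ψ, Cl4.sat α C) ∧ (∀ x ∈ as, lval α x = true) ∧ α i = true := by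
  constructor
  · intro h
    refine ⟨fun C hC => h C ?_, fun x hx => ?_, ?_⟩
    · simp only [query, List.mem_append]
      exact Or.inl hC
    · rw [← sat_unitC]
      apply h
      simp only [query, List.mem_append, List.mem_map]
      exact Or.inr (Or.inl ⟨x, hx, rfl⟩)
    · have h1 : Cl4.sat α (unitC (i, true)) := by
        apply h
        simp [query]
      rw [sat_unitC] at h1
      simpa [lval] using h1
  · rintro ⟨h1, h2, h3⟩ C hC
    simp only [query, List.mem_append, List.mem_map, List.mem_cons, List.mem_replicate] at hC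
    rcases hC with hC | ⟨x, hx, rfl⟩ | rfl | ⟨_, rfl⟩
    · exact h1 C hC
    · exact (sat_unitC α x).2 (h2 x hx)
    · rw [sat_unitC]
      simp [lval, h3]
    · exact sat_tautC α

theorem cpath_sat (N : ℕ) (ψ : List Cl4) (h : Sat4 ψ) (i : ℕ) :
    ∃ α : ℕ → Bool, (∀ C ∈ ψ, Cl4.sat α C) ∧ ∀ x ∈ cpath N ψ i, lval α x = true := by
  induction i with
  | zero =>
    obtain ⟨α, hα⟩ := h
    exact ⟨α, hα, by simp [cpath]⟩
  | succ i ih =>
    obtain ⟨α, h1, h2⟩ := ih
    by_cases hq : Sat4 (query N ψ (cpath N ψ i) i)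
    · obtain ⟨β, hβ⟩ := hq
      have hq : Sat4 (query N ψ (cpath N ψ i) i) := ⟨β, hβ⟩
      obtain ⟨h3, h4, h5⟩ := (sat_query β N ψ _ i).1 hβ
      refine ⟨β, h3, fun x hx => ?_⟩
      simp only [cpath, hq, List.mem_append, List.mem_singleton, decide_true] at hx
      rcases hx with hx | rfl
      · exact h4 x hx
      · simp [lval, h5]
    · refine ⟨α, h1, fun x hx => ?_⟩
      simp only [cpath, hq, List.mem_append, List.mem_singleton, decide_false] at hx
      rcases hx with hx | rfl
      · exact h2 x hx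
      · have h6 : α i ≠ true := fun h6 =>
          hq ⟨α, (sat_query α N ψ _ i).2 ⟨h1, h2, h6⟩⟩
        simp only [lval]
        simpa using h6

theorem cpath_get (N : ℕ) (ψ : List Cl4) (v i : ℕ) (h : v < i) :
    ((cpath N ψ i).getD v (0, false)).1 = v ∧ (cpath N ψ i).getD v (0, false) ∈ cpath N ψ i := by
  induction i with
  | zero => omega
  | succ i ih =>
    simp only [cpath]
    rcases Nat.lt_or_ge v i with hv | hv
    · rw [List.getD_append _ _ _ _ (by rw [cpath_length]; exact hv)]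
      exact ⟨(ih hv).1, List.mem_append_left _ (ih hv).2⟩
    · have hvi : v = i := by omega
      subst hvi
      rw [List.getD_append_right _ _ _ _ (by rw [cpath_length])]
      simp [cpath_length]

theorem lt_nvar (ψ : List Cl4) (C : Cl4) (hC : C ∈ ψ) :
    C.1.1 < nvar ψ ∧ C.2.1.1 < nvar ψ ∧ C.2.2.1.1 < nvar ψ ∧ C.2.2.2.1 < nvar ψ := by
  have h : C.1.1 + C.2.1.1 + C.2.2.1.1 + C.2.2.2.1 + 1 ≤ nvar ψ := by
    unfold nvar
    rw [List.length_flatMap]
    apply Nat.succ_le_succ
    exact List.single_le_sum (by simp) _ (List.mem_map.2 ⟨C, hC, by simp⟩)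
  omega

theorem cpath_satB (ψ : List Cl4) (h : Sat4 ψ) : satB ψ (cpath (nvar ψ) ψ (nvar ψ)) = true := by
  obtain ⟨α, h1, h2⟩ := cpath_sat (nvar ψ) ψ h (nvar ψ)
  have key : ∀ v < nvar ψ, asgn (cpath (nvar ψ) ψ (nvar ψ)) v = α v := by
    intro v hv
    obtain ⟨h3, h4⟩ := cpath_get (nvar ψ) ψ v (nvar ψ) hv
    have h5 := h2 _ h4
    unfold lval at h5
    rw [h3] at h5
    unfold asgn
    exact (beq_iff_eq.1 h5).symm
  rw [satB_iff]
  intro C hC
  obtain ⟨a1, a2, a3, a4⟩ := lt_nvar ψ C hC
  have h6 := h1 C hC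
  unfold Cl4.sat lval at h6 ⊢
  rw [key _ a1, key _ a2, key _ a3, key _ a4]
  exact h6

open scoped Classical in
theorem search_eq (D : List Cl4 → List Bool → Bool) (N T B : ℕ) (ψ : List Cl4) (r : List Bool)
    (h : ∀ i < N, maj T B (D (query N ψ (cpath N ψ i) i)) (chunk (T * B) i r) =
      decide (Sat4 (query N ψ (cpath N ψ i) i))) :
    search D N T B ψ r = cpath N ψ N := by
  have key : ∀ i ≤ N, (List.range i).foldl (fun as i =>
      as ++ [(i, maj T B (D (query N ψ as i)) (chunk (T * B) i r))]) [] = cpath N ψ i := by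
    intro i hi
    induction i with
    | zero => rfl
    | succ i ih =>
      rw [List.range_succ, List.foldl_append, ih (by omega)]
      simp only [List.foldl_cons, List.foldl_nil, cpath]
      rw [h i (by omega)]
  exact key N le_rfl

theorem pow_bound (N : ℕ) (hN : 1 ≤ N) : (N : ℝ) * (15 / 16) ^ (16 * N) ≤ 1 / 2 := by
  have h1 : ((15 : ℝ) / 16) ^ (16 * N) ≤ (1 / 2) ^ N := by
    rw [pow_mul]
    exact pow_le_pow_left₀ (by positivity) (by norm_num) N
  have h2 : (N : ℝ) ≤ 2 ^ (N - 1) := by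
    have : N ≤ 2 ^ (N - 1) := by
      have := Nat.lt_two_pow_self (n := N - 1)
      omega
    exact_mod_cast this
  have h3 : (2 : ℝ) ^ (N - 1) * (1 / 2) ^ N = 1 / 2 := by
    obtain ⟨M, rfl⟩ : ∃ M, N = M + 1 := ⟨N - 1, by omega⟩
    simp only [Nat.add_sub_cancel]
    rw [pow_succ, ← mul_assoc, ← mul_pow]
    norm_num
  calc (N : ℝ) * (15 / 16) ^ (16 * N) ≤ 2 ^ (N - 1) * (1 / 2) ^ N :=
        mul_le_mul h2 h1 (by positivity) (by positivity)
    _ = 1 / 2 := h3

/-- Module SR. -/
theorem sr (hP : PROB) (hA : AMP) : SR := by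
  classical
  refine ⟨sat4_of_satB, ?_⟩
  intro D ψ B R hD hψ hR
  obtain ⟨hmono, hwin, -, hunion⟩ := hP
  set N := nvar ψ with hN
  have hN1 : 1 ≤ N := by rw [hN]; unfold nvar; omega
  have hkey : ∀ i < N, 1 - (15 / 16 : ℝ) ^ (16 * N) ≤ prob R (fun r =>
      maj (32 * N) B (D (query N ψ (cpath N ψ i) i)) (chunk (32 * N * B) i r) =
        decide (Sat4 (query N ψ (cpath N ψ i) i))) := by
    intro i hi
    have h1 : 5 / 8 ≤ prob B (fun r => D (query N ψ (cpath N ψ i) i) r =
        decide (Sat4 (query N ψ (cpath N ψ i) i))) := by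
      refine le_trans (hD (query N ψ (cpath N ψ i) i)
        (query_length N ψ _ i hi (cpath_length N ψ i))) (hmono _ _ _ fun r _ hr => ?_)
      by_cases hs : Sat4 (query N ψ (cpath N ψ i) i)
      · simp [hs, hr.2 hs]
      · have : ¬ D (query N ψ (cpath N ψ i) i) r = true := fun h => hs (hr.1 h)
        simp [hs, this]
    have h2 := hA B (16 * N) _ _ h1
    have h3 : 2 * (16 * N) = 32 * N := by ring
    rw [h3] at h2
    refine le_trans h2 (le_of_eq ?_)
    rw [← hwin (i * (32 * N * B)) (32 * N * B) R]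
    · rfl
    · calc i * (32 * N * B) + 32 * N * B = (i + 1) * (32 * N * B) := by ring
        _ ≤ N * (32 * N * B) := Nat.mul_le_mul_right _ hi
        _ = N * (32 * N) * B := by ring
        _ ≤ R := hR
  have h4 := hunion R N _ _ hkey
  have h5 := pow_bound N hN1
  refine le_trans (by linarith) (le_trans h4 (hmono _ _ _ fun r _ hr => ?_))
  rw [search_eq D N (32 * N) B ψ r hr]
  exact cpath_satB ψ hψ

end Pool.Agent.Polya.H4
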