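import Pool.Agent.Lib.MP_6ec4b3_lc.Interfaces

/-!
# The value of an instance (module ROWS)
-/

namespace Pool.Agent.Polya.H4

open Pool.Agent.Polya Pool.Agent.Shoped30

theorem pairRows_length (l u v : ℕ) (e : Bool) (φ ψ : List Bool) :
    (pairRows l u v e φ ψ).length = 2 := by
  unfold pairRows
  split_ifs <;> rfl

theorem rows_length (n l t : ℕ) (E : ℕ → ℕ → Bool) (r : List Bool) :
    (rowsOf n l t E r).length = nblocks n l t := by
  unfold rowsOf nblocks
  simp only [List.length_append, List.length_map, List.length_range, List.length_flatMap,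
    pairRows_length, List.map_const', List.sum_replicate, smul_eq_mul, List.length_range]
  ring

theorem prod_map_flatMap {α β : Type} (L : List α) (f : α → List β) (g : β → ℕ) :
    ((L.flatMap f).map g).prod = (L.map fun a => ((f a).map g).prod).prod := by
  induction L with
  | nil => rfl
  | cons a L ih => simp [ih]

theorem prod_range_list (n : ℕ) (g : ℕ → ℕ) :
    ((List.range n).map g).prod = ∏ i : Fin n, g i.val := by
  rw [← Finset.prod_range, Finset.prod_eq_multiset_prod]
  rfl

theorem lin_nil (L : ℕ) (x : Fin L → ZMod 2) : lin L [] x = 0 := by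
  simp [lin]

theorem getD_unit (j i : ℕ) :
    (List.replicate j false ++ [true]).getD i false = true ↔ i = j := by
  rcases Nat.lt_or_ge i j with h | h
  · rw [List.getD_append _ _ _ _ (by simpa using h)]
    rw [List.getD_replicate _ h]
    constructor
    · intro h'
      exact absurd h' (by simp)
    · intro h'
      omega
  · rw [List.getD_append_right _ _ _ _ (by simpa using h)]
    simp only [List.length_replicate]
    rcases Nat.eq_or_lt_of_le h with h' | h'
    · subst h'
      simp
    · obtain ⟨d, rfl⟩ : ∃ d, i = j + (d + 1) := ⟨i - j - 1, by omega⟩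
      rw [Nat.add_sub_cancel_left]
      simp

theorem lin_unit (L : ℕ) (j : Fin L) (x : Fin L → ZMod 2) :
    lin L (List.replicate j.val false ++ [true]) x = x j := by
  unfold lin
  rw [Finset.sum_eq_single j]
  · rw [if_pos ((getD_unit _ _).2 rfl)]
  · intro i _ hi
    rw [if_neg]
    rw [getD_unit]
    intro h
    exact hi (Fin.ext h)
  · intro h
    exact absurd (Finset.mem_univ j) h

/-- The chunk has length at most `l`. -/
theorem chunk_length (l j : ℕ) (r : List Bool) : (chunk l j r).length ≤ l := by
  unfold chunk
  simp

theorem chunk_getD (l j a : ℕ) (ha : a < l) (r : List Bool) :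
    (chunk l j r).getD a false = r.getD (j * l + a) false := by
  unfold chunk
  rw [List.getD_eq_getElem?_getD, List.getD_eq_getElem?_getD, List.getElem?_take, if_pos ha,
    List.getElem?_drop]

theorem place_getD (l u v a : ℕ) (ha : a < l) (φ : List Bool) (hφ : φ.length ≤ l) :
    (place l u φ).getD (a + l * v) false = if v = u then φ.getD a false else false := by
  unfold place
  rcases Nat.lt_trichotomy v u with h | h | h
  · rw [if_neg (by omega)]
    have h1 : a + l * v < u * l := by
      calc a + l * v < l + l * v := by omega
        _ = (v + 1) * l := by ring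
        _ ≤ u * l := Nat.mul_le_mul_right _ h
    rw [List.getD_append _ _ _ _ (by simpa using h1)]
    simp
  · subst h
    rw [if_pos rfl, List.getD_append_right _ _ _ _ (by simp [Nat.mul_comm])]
    simp [Nat.mul_comm]
  · rw [if_neg (by omega)]
    have h1 : u * l + l ≤ a + l * v := by
      calc u * l + l = (u + 1) * l := by ring
        _ ≤ v * l := Nat.mul_le_mul_right _ h
        _ ≤ a + l * v := by rw [Nat.mul_comm l v]; omega
    rw [List.getD_append_right _ _ _ _ (by simp; omega)]
    apply List.getD_eq_default
    simp only [List.length_replicate]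
    omega

/-- The two descriptions of the coordinates. -/
def coordEquiv (n l : ℕ) : (Fin (n * l) → ZMod 2) ≃ (Fin n → Fin l → ZMod 2) :=
  (Equiv.arrowCongr finProdFinEquiv.symm (Equiv.refl _)).trans (Equiv.curry _ _ _)

theorem coordEquiv_apply (n l : ℕ) (x : Fin (n * l) → ZMod 2) (v : Fin n) (a : Fin l) :
    coordEquiv n l x v a = x (finProdFinEquiv (v, a)) := rfl

theorem lin_place (n l j : ℕ) (u : Fin n) (r : List Bool) (x : Fin (n * l) → ZMod 2) :
    lin (n * l) (place l u.val (chunk l j r)) x = dot (fn l j r) (coordEquiv n l x u) := by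
  unfold lin dot fn
  rw [← finProdFinEquiv.sum_comp, Fintype.sum_prod_type, Finset.sum_eq_single u]
  · refine Finset.sum_congr rfl fun a _ => ?_
    rw [coordEquiv_apply]
    simp only [finProdFinEquiv_apply_val]
    rw [place_getD l u.val u.val a.val a.isLt _ (chunk_length _ _ _), if_pos rfl,
      chunk_getD _ _ _ a.isLt]
    split_ifs <;> simp
  · intro v _ hv
    refine Finset.sum_eq_zero fun a _ => ?_
    simp only [finProdFinEquiv_apply_val]
    rw [place_getD l u.val v.val a.val a.isLt _ (chunk_length _ _ _),
      if_neg (fun h => hv (Fin.ext h))]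
    simp
  · intro h
    exact absurd (Finset.mem_univ u) h

theorem pairRows_prod (k n l j1 j2 : ℕ) (u v : Fin n) (e : Bool) (r : List Bool)
    (x : Fin (n * l) → ZMod 2) :
    ((pairRows l u.val v.val e (chunk l j1 r) (chunk l j2 r)).map
      fun q => F k (lin (n * l) q.1 x) (lin (n * l) q.2 x)).prod =
      pw k e (dot (fn l j1 r) (coordEquiv n l x u)) (dot (fn l j2 r) (coordEquiv n l x v)) := by
  unfold pairRows pw
  split_ifs with h
  · simp only [List.map_cons, List.map_nil, List.prod_cons, List.prod_nil, lin_place, lin_nil,
      mul_one]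
  · simp only [List.map_cons, List.map_nil, List.prod_cons, List.prod_nil, lin_place, lin_nil,
      mul_one]

/-- Module ROWS. -/
theorem rows (hG : GRP) : ROWS := by
  intro k n l t E r
  refine ⟨rows_length n l t E r, ?_⟩
  rw [hG k (n * l) (rowsOf n l t E r)]
  · unfold ZZ
    rw [← (coordEquiv n l).sum_comp]
    refine Finset.sum_congr rfl fun x _ => ?_
    unfold rowsOf
    rw [List.map_append, List.prod_append]
    congr 1
    · rw [List.map_map, prod_range_list, ← finProdFinEquiv.prod_comp, Fintype.prod_prod_type]
      refine Finset.prod_congr rfl fun v _ => Finset.prod_congr rfl fun a _ => ?_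
      simp only [Function.comp_apply]
      rw [lin_unit, lin_nil, coordEquiv_apply]
    · rw [prod_map_flatMap, prod_range_list, Fintype.prod_prod_type]
      refine Finset.prod_congr rfl fun u _ => ?_
      rw [prod_map_flatMap, prod_range_list, Fintype.prod_prod_type]
      refine Finset.prod_congr rfl fun v _ => ?_
      rw [prod_map_flatMap, prod_range_list]
      refine Finset.prod_congr rfl fun i _ => ?_
      rw [pairRows_prod]
      rfl
  · intro x hx
    funext j
    have h1 := (hx (List.replicate j.val false ++ [true], []) (by
      unfold rowsOf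
      refine List.mem_append_left _ (List.mem_map.2 ⟨j.val, by simp, rfl⟩))).1
    rw [lin_unit] at h1
    exact h1

end Pool.Agent.Polya.H4
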